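import Pool.Agent.Lib.MP_d55432_al.SIX.Iface

/-!
# SIX, module CORE: the properties of the seed map
-/

namespace Pool.Agent.Lib.MP_d55432_al.SIX.H47

open Matrix LieAlgebra

attribute [local instance 100] LieRing.ofAssociativeRing

variable {K : Type*} [Field K] [CharZero K]

theorem sq4_sq (hC : CHC_S K) (X : M4 K) (h0 : X.trace = 0) (h3 : (X * X * X).trace = 0) :
    ∃ c : K, sq4 X * sq4 X = c • (1 : M4 K) := by
  have h := hC X h0
  rw [h3] at h
  have h1 : sq4 X * sq4 X = X * X * X * X - ((X * X).trace / 2) • (X * X) +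
      ((X * X).trace ^ 2 / 16) • (1 : M4 K) := by
    rw [sq4, Matrix.sub_mul, Matrix.mul_sub, Matrix.mul_sub, Matrix.smul_mul, Matrix.mul_smul,
      Matrix.smul_mul, Matrix.mul_smul, Matrix.one_mul, Matrix.mul_one, Matrix.one_mul,
      ← Matrix.mul_assoc]
    module
  generalize (X * X * X * X).trace = t4 at h
  refine ⟨t4 / 4 - (X * X).trace ^ 2 / 16, ?_⟩
  rw [h1, h]
  module

omit [CharZero K] in
theorem comm_adj4 (a l : M4 K) (h : a * l = l * a) : a * adj4 l = adj4 l * a := by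
  have h2 : a * (l * l) = l * l * a := by
    rw [← Matrix.mul_assoc, h, Matrix.mul_assoc, h, Matrix.mul_assoc]
  have h3 : a * (l * l * l) = l * l * l * a := by
    rw [← Matrix.mul_assoc, h2, Matrix.mul_assoc, h, ← Matrix.mul_assoc]
  simp only [adj4, Matrix.mul_add, Matrix.add_mul, Matrix.mul_sub, Matrix.sub_mul,
    Matrix.mul_neg, Matrix.neg_mul, Matrix.mul_smul, Matrix.smul_mul, Matrix.mul_one,
    Matrix.one_mul, h, h2, h3]

omit [CharZero K] in
theorem trace_comm_mul (a x M : M4 K) (h : a * M = M * a) :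
    ((a * x - x * a) * M).trace = 0 := by
  rw [Matrix.sub_mul, trace_sub, Matrix.mul_assoc x a M, h, ← Matrix.mul_assoc x M a,
    Matrix.trace_mul_comm (x * M) a, Matrix.mul_assoc a x M, sub_self]

theorem trace_adj4 (X : M4 K) (h0 : X.trace = 0) :
    (adj4 X).trace = (X * X * X).trace / 3 := by
  simp only [adj4, trace_add, trace_sub, trace_neg, trace_smul, trace_one, Fintype.card_fin,
    smul_eq_mul, h0]
  push_cast
  ring

omit [CharZero K] in
theorem lin4_comm (a Y : M4 K) : a * lin4 a Y = lin4 a Y * a := by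
  simp only [lin4, Matrix.mul_sub, Matrix.sub_mul, Matrix.mul_smul, Matrix.smul_mul,
    Matrix.mul_one, Matrix.one_mul]

omit [CharZero K] in
theorem trace_lin4_mul (a Y : M4 K) : (lin4 a Y * Y).trace = 0 := by
  simp only [lin4, Matrix.sub_mul, Matrix.smul_mul, Matrix.one_mul, trace_sub, trace_smul,
    smul_eq_mul]
  ring

theorem trace_cube_e (hA : CHA_S K) (a x : M4 K) :
    (lin4 a (adj4 (a * x - x * a)) * adj4 (a * x - x * a) *
      (lin4 a (adj4 (a * x - x * a)) * adj4 (a * x - x * a)) *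
      (lin4 a (adj4 (a * x - x * a)) * adj4 (a * x - x * a))).trace = 0 := by
  set y := a * x - x * a with hy
  set Y := adj4 y with hY
  set l := lin4 a Y with hl
  have h0 : (l * Y).trace = 0 := trace_lin4_mul a Y
  have h1 : (adj4 (l * Y)).trace = 0 := by
    rw [hA, Matrix.adjugate_mul_distrib, hY, hA y, Matrix.adjugate_adjugate y (by simp), ← hA l,
      Matrix.smul_mul, trace_smul, trace_comm_mul a x (adj4 l) (comm_adj4 a l (lin4_comm a Y)),
      smul_zero]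
  rw [trace_adj4 _ h0] at h1
  have h2 : (3 : K) ≠ 0 := by norm_num
  field_simp at h1
  simpa using h1

theorem sq_scalar_add (hC : CHC_S K) (z z' : M4 K) (c c' : K) (hz : z * z = c • (1 : M4 K))
    (hz' : z' * z' = c' • (1 : M4 K)) (h0 : z.trace = 0) (h0' : z'.trace = 0) :
    ∃ d : K, sq4 (z + z') * sq4 (z + z') = d • (1 : M4 K) := by
  apply sq4_sq hC
  · rw [trace_add, h0, h0', add_zero]
  · have h1 : (z + z') * (z + z') * (z + z') = (z * z) * z + (z * z) * z' + z * z' * z +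
        z * (z' * z') + z' * (z * z) + z' * z * z' + (z' * z') * z + (z' * z') * z' := by
      noncomm_ring
    have h2 : (z * z' * z).trace = 0 := by
      rw [Matrix.trace_mul_comm, ← Matrix.mul_assoc, hz, Matrix.smul_mul, Matrix.one_mul,
        trace_smul, h0', smul_zero]
    have h3 : (z' * z * z').trace = 0 := by
      rw [Matrix.trace_mul_comm, ← Matrix.mul_assoc, hz', Matrix.smul_mul, Matrix.one_mul,
        trace_smul, h0, smul_zero]
    rw [h1, hz, hz']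
    simp only [trace_add, Matrix.smul_mul, Matrix.mul_smul, Matrix.one_mul, Matrix.mul_one,
      trace_smul, h0, h0', h2, h3, smul_zero, add_zero]

theorem w4_sq (hA : CHA_S K) (hC : CHC_S K) (a x : M4 K) :
    ∃ c : K, w4 a x * w4 a x = c • (1 : M4 K) := by
  set Y := adj4 (a * x - x * a) with hY
  set l := lin4 a Y with hl
  have h0 : (l * Y).trace = 0 := trace_lin4_mul a Y
  have h0' : (Y * l).trace = 0 := by rw [Matrix.trace_mul_comm]; exact h0
  have h3 : ((l * Y) * (l * Y) * (l * Y)).trace = 0 := trace_cube_e hA a x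
  have h3' : ((Y * l) * (Y * l) * (Y * l)).trace = 0 := by
    have h4 : (Y * l) * (Y * l) * (Y * l) = Y * (l * Y * (l * Y) * l) := by
      simp only [Matrix.mul_assoc]
    rw [h4, Matrix.trace_mul_comm]
    have h5 : l * Y * (l * Y) * l * Y = (l * Y) * (l * Y) * (l * Y) := by
      simp only [Matrix.mul_assoc]
    rw [h5, h3]
  obtain ⟨c, hc⟩ := sq4_sq hC _ h0 h3
  obtain ⟨c', hc'⟩ := sq4_sq hC _ h0' h3'
  exact sq_scalar_add hC _ _ c c' hc hc' (trace_sq4 _) (trace_sq4 _)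

omit [CharZero K] in
theorem trace_cube_bracket (w y : M4 K) (c : K) (hw : w * w = c • (1 : M4 K)) :
    ((w * y - y * w) * (w * y - y * w) * (w * y - y * w)).trace = 0 := by
  set s := w * y - y * w with hs
  have h1 : s * w = -(w * s) := by
    rw [hs, Matrix.sub_mul, Matrix.mul_sub, Matrix.mul_assoc y w w, hw, ← Matrix.mul_assoc w w y,
      hw, Matrix.smul_mul, Matrix.mul_smul, Matrix.one_mul, Matrix.mul_one, Matrix.mul_assoc]
    abel
  have h2 : s * s * w = w * (s * s) := by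
    rw [Matrix.mul_assoc, h1, Matrix.mul_neg, ← Matrix.mul_assoc, h1, Matrix.neg_mul, neg_neg,
      Matrix.mul_assoc]
  have h3 : s * s * s = s * s * w * y - s * s * (y * w) := by
    conv_lhs => rw [hs]
    rw [← hs, Matrix.mul_sub, ← Matrix.mul_assoc]
  rw [h3, trace_sub, h2, ← Matrix.mul_assoc (s * s) y w, Matrix.trace_mul_comm (s * s * y) w,
    Matrix.mul_assoc w (s * s) y, sub_self]

theorem F4_sq (hA : CHA_S K) (hC : CHC_S K) (a x y b : M4 K) :
    ∃ c : K, F4 a x y b * F4 a x y b = c • (1 : M4 K) := by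
  obtain ⟨c, hc⟩ := w4_sq hA hC a x
  have h0 : (w4 a x * y - y * w4 a x).trace = 0 := by
    rw [trace_sub, Matrix.trace_mul_comm, sub_self]
  obtain ⟨d, hd⟩ := sq4_sq hC _ h0 (trace_cube_bracket _ y c hc)
  refine ⟨(b * b * b).trace * ((b * b * b).trace * d), ?_⟩
  rw [F4, Matrix.smul_mul, Matrix.mul_smul, hd, smul_smul, smul_smul, mul_assoc]

omit [CharZero K] in
/-- The product of two explicit matrices. -/
theorem mul_eq (p q r : M4 K) (h : ∀ i j, p i 0 * q 0 j + p i 1 * q 1 j + p i 2 * q 2 j +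
    p i 3 * q 3 j = r i j) : p * q = r := by
  ext i j
  rw [← h, Matrix.mul_apply, Fin.sum_univ_four]

omit [CharZero K] in
theorem trace_eq (p : M4 K) (c : K) (h : p 0 0 + p 1 1 + p 2 2 + p 3 3 = c) : p.trace = c := by
  rw [← h, Matrix.trace, Fin.sum_univ_four]
  rfl

set_option maxHeartbeats 4000000 in
/-- The explicit example. -/
theorem example_w4 : ∃ a x : M4 K, a.trace = 0 ∧ x.trace = 0 ∧
    w4 a x * w4 a x = (1024 : K) • (1 : M4 K) := by
  set a : M4 K := !![0, 0, 0, -1; 0, 0, 0, 0; 0, 0, 1, 0; 0, 1, 0, -1] with ha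
  set x : M4 K := !![0, 0, 0, 0; 0, 0, 1, 0; 0, 0, 0, -1; 1, 0, 0, 0] with hx
  have hax : a * x = !![-1, 0, 0, 0; 0, 0, 0, 0; 0, 0, 0, -1; -1, 0, 1, 0] := by
    apply mul_eq
    intro i j
    fin_cases i <;> fin_cases j <;> simp [ha, hx]
  have hxa : x * a = !![0, 0, 0, 0; 0, 0, 1, 0; 0, -1, 0, 1; 0, 0, 0, -1] := by
    apply mul_eq
    intro i j
    fin_cases i <;> fin_cases j <;> simp [ha, hx]
  have hy : a * x - x * a = !![-1, 0, 0, 0; 0, 0, -1, 0; 0, 1, 0, -2; -1, 0, 1, 1] := by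
    rw [hax, hxa]
    ext i j
    fin_cases i <;> fin_cases j <;> simp
    norm_num
  have h2 : (!![-1, 0, 0, 0; 0, 0, -1, 0; 0, 1, 0, -2; -1, 0, 1, 1] : M4 K) *
      !![-1, 0, 0, 0; 0, 0, -1, 0; 0, 1, 0, -2; -1, 0, 1, 1] =
      !![1, 0, 0, 0; 0, -1, 0, 2; 2, 0, -3, -2; 0, 1, 1, -1] := by
    apply mul_eq
    intro i j
    fin_cases i <;> fin_cases j <;> simp <;> norm_num
  have h3 : (!![1, 0, 0, 0; 0, -1, 0, 2; 2, 0, -3, -2; 0, 1, 1, -1] : M4 K) *
      !![-1, 0, 0, 0; 0, 0, -1, 0; 0, 1, 0, -2; -1, 0, 1, 1] =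
      !![-1, 0, 0, 0; -2, 0, 3, 2; 0, -3, -2, 4; 1, 1, -2, -3] := by
    apply mul_eq
    intro i j
    fin_cases i <;> fin_cases j <;> simp <;> norm_num
  have t1 : (!![-1, 0, 0, 0; 0, 0, -1, 0; 0, 1, 0, -2; -1, 0, 1, 1] : M4 K).trace = 0 := by
    apply trace_eq; simp
  have t2 : (!![1, 0, 0, 0; 0, -1, 0, 2; 2, 0, -3, -2; 0, 1, 1, -1] : M4 K).trace = -4 := by
    apply trace_eq; simp; norm_num
  have t3 : (!![-1, 0, 0, 0; -2, 0, 3, 2; 0, -3, -2, 4; 1, 1, -2, -3] : M4 K).trace = -6 := by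
    apply trace_eq; simp; norm_num
  have hY : adj4 (a * x - x * a) = !![1, 0, 0, 0; 2, -2, -1, -2; 0, 1, 0, 0; 1, -1, 0, -1] := by
    rw [hy, adj4, h2, h3, t1, t2, t3]
    ext i j
    fin_cases i <;> fin_cases j <;> simp <;> norm_num
  have hl : lin4 a (adj4 (a * x - x * a)) =
      !![-2, 0, 0, -2; 0, -2, 0, 0; 0, 0, 0, 0; 0, 2, 0, -4] := by
    have h5 : a * !![1, 0, 0, 0; 2, -2, -1, -2; 0, 1, 0, 0; 1, -1, 0, -1] =
        !![-1, 1, 0, 1; 0, 0, 0, 0; 0, 1, 0, 0; 1, -1, -1, -1] := by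
      apply mul_eq
      intro i j
      fin_cases i <;> fin_cases j <;> simp [ha] <;> norm_num
    have t5 : (!![-1, 1, 0, 1; 0, 0, 0, 0; 0, 1, 0, 0; 1, -1, -1, -1] : M4 K).trace = -2 := by
      apply trace_eq; simp; norm_num
    have t6 : (!![1, 0, 0, 0; 2, -2, -1, -2; 0, 1, 0, 0; 1, -1, 0, -1] : M4 K).trace = -2 := by
      apply trace_eq; simp
    rw [hY, lin4, h5, t5, t6]
    ext i j
    fin_cases i <;> fin_cases j <;> simp [ha] <;> norm_num
  have he : lin4 a (adj4 (a * x - x * a)) * adj4 (a * x - x * a) =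
      !![-4, 2, 0, 2; -4, 4, 2, 4; 0, 0, 0, 0; 0, 0, -2, 0] := by
    rw [hl, hY]
    apply mul_eq
    intro i j
    fin_cases i <;> fin_cases j <;> simp <;> norm_num
  have he' : adj4 (a * x - x * a) * lin4 a (adj4 (a * x - x * a)) =
      !![-2, 0, 0, -2; -4, 0, 0, 4; 0, -2, 0, 0; -2, 0, 0, 2] := by
    rw [hl, hY]
    apply mul_eq
    intro i j
    fin_cases i <;> fin_cases j <;> simp <;> norm_num
  have hz : sq4 (lin4 a (adj4 (a * x - x * a)) * adj4 (a * x - x * a)) =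
      !![4, 0, 0, 0; 0, 4, 0, 8; 0, 0, -4, 0; 0, 0, 0, -4] := by
    have h6 : (!![-4, 2, 0, 2; -4, 4, 2, 4; 0, 0, 0, 0; 0, 0, -2, 0] : M4 K) *
        !![-4, 2, 0, 2; -4, 4, 2, 4; 0, 0, 0, 0; 0, 0, -2, 0] =
        !![8, 0, 0, 0; 0, 8, 0, 8; 0, 0, 0, 0; 0, 0, 0, 0] := by
      apply mul_eq
      intro i j
      fin_cases i <;> fin_cases j <;> simp <;> norm_num
    have t7 : (!![8, 0, 0, 0; 0, 8, 0, 8; 0, 0, 0, 0; 0, 0, 0, 0] : M4 K).trace = 16 := by
      apply trace_eq; simp; norm_num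
    rw [he, sq4, h6, t7]
    ext i j
    fin_cases i <;> fin_cases j <;> simp <;> norm_num
  have hz' : sq4 (adj4 (a * x - x * a) * lin4 a (adj4 (a * x - x * a))) =
      !![4, 0, 0, 0; 0, -4, 0, 16; 8, 0, -4, -8; 0, 0, 0, 4] := by
    have h6 : (!![-2, 0, 0, -2; -4, 0, 0, 4; 0, -2, 0, 0; -2, 0, 0, 2] : M4 K) *
        !![-2, 0, 0, -2; -4, 0, 0, 4; 0, -2, 0, 0; -2, 0, 0, 2] =
        !![8, 0, 0, 0; 0, 0, 0, 16; 8, 0, 0, -8; 0, 0, 0, 8] := by
      apply mul_eq
      intro i j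
      fin_cases i <;> fin_cases j <;> simp <;> norm_num
    have t7 : (!![8, 0, 0, 0; 0, 0, 0, 16; 8, 0, 0, -8; 0, 0, 0, 8] : M4 K).trace = 16 := by
      apply trace_eq; simp; norm_num
    rw [he', sq4, h6, t7]
    ext i j
    fin_cases i <;> fin_cases j <;> simp <;> norm_num
  have hzz : sq4 (lin4 a (adj4 (a * x - x * a)) * adj4 (a * x - x * a)) +
      sq4 (adj4 (a * x - x * a) * lin4 a (adj4 (a * x - x * a))) =
      !![8, 0, 0, 0; 0, 0, 0, 24; 8, 0, -8, -8; 0, 0, 0, 0] := by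
    rw [hz, hz']
    ext i j
    fin_cases i <;> fin_cases j <;> simp <;> norm_num
  have hw : w4 a x = !![32, 0, 0, 0; 0, -32, 0, 0; 0, 0, 32, 64; 0, 0, 0, -32] := by
    have h6 : (!![8, 0, 0, 0; 0, 0, 0, 24; 8, 0, -8, -8; 0, 0, 0, 0] : M4 K) *
        !![8, 0, 0, 0; 0, 0, 0, 24; 8, 0, -8, -8; 0, 0, 0, 0] =
        !![64, 0, 0, 0; 0, 0, 0, 0; 0, 0, 64, 64; 0, 0, 0, 0] := by
      apply mul_eq
      intro i j
      fin_cases i <;> fin_cases j <;> simp <;> norm_num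
    have t7 : (!![64, 0, 0, 0; 0, 0, 0, 0; 0, 0, 64, 64; 0, 0, 0, 0] : M4 K).trace = 128 := by
      apply trace_eq; simp; norm_num
    rw [w4, hzz, sq4, h6, t7]
    ext i j
    fin_cases i <;> fin_cases j <;> simp <;> norm_num
  refine ⟨a, x, ?_, ?_, ?_⟩
  · apply trace_eq; simp [ha]
  · apply trace_eq; simp [hx]
  · rw [hw]
    apply mul_eq
    intro i j
    fin_cases i <;> fin_cases j <;> simp <;> norm_num

end Pool.Agent.Lib.MP_d55432_al.SIX.H47

namespace Pool.Agent.Lib.MP_d55432_al.SIX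

theorem H47.core (K : Type*) [Field K] [CharZero K] (hA : CHA_S K) (hC : CHC_S K) : CORE_S K :=
  ⟨H47.sq4_sq hC, H47.w4_sq hA hC, H47.trace_cube_bracket, H47.example_w4, H47.F4_sq hA hC⟩

end Pool.Agent.Lib.MP_d55432_al.SIX
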