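import Pool.Agent.Lib.MP_d55432_al.SIX.Iface

/-!
# SIX, module DARB: skew matrices of small rank
-/

namespace Pool.Agent.Lib.MP_d55432_al.SIX.H47

open Matrix LieAlgebra

attribute [local instance 100] LieRing.ofAssociativeRing

variable {K : Type*} [Field K]

theorem skew_apply (x : M6 K) (h : xᵀ = -x) (i j : Fin 6) : x j i = -x i j := by
  have := congrFun (congrFun h i) j
  simpa [Matrix.transpose_apply] using this

theorem skew_diag [CharZero K] (x : M6 K) (h : xᵀ = -x) (i : Fin 6) : x i i = 0 := by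
  have := skew_apply x h i i
  have h2 : (2 : K) * x i i = 0 := by linear_combination this
  exact (mul_eq_zero.1 h2).resolve_left two_ne_zero

theorem rank_sub_wedge [CharZero K] (x : M6 K) (h : xᵀ = -x) (hx : x ≠ 0) :
    ∃ u v : Fin 6 → K, (x - wedgeM u v).rank + 2 ≤ x.rank := by
  obtain ⟨a, b, hab⟩ : ∃ a b, x a b ≠ 0 := by
    by_contra hc
    push Not at hc
    exact hx (Matrix.ext fun i j => hc i j)
  have hs := skew_apply x h
  have hd := skew_diag x h
  refine ⟨fun i => x a i, fun i => (x a b)⁻¹ * x b i, ?_⟩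
  set y := x - wedgeM (fun i => x a i) (fun i => (x a b)⁻¹ * x b i) with hy
  have hyij : ∀ i j, y i j = x i j - (x a i * ((x a b)⁻¹ * x b j) -
      (x a b)⁻¹ * x b i * x a j) := by
    intro i j
    rw [hy, wedgeM]
    simp [vecMulVec_apply]
  have hker : ∀ (w : Fin 6 → K) (α β : K), x *ᵥ w = 0 →
      y *ᵥ (w + α • Pi.single a 1 + β • Pi.single b 1) = 0 := by
    intro w α β hw
    have hya : ∀ i, y i a = 0 := by
      intro i
      rw [hyij, hd a, hs a b, hs a i]
      field_simp
      ring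
    have hyb : ∀ i, y i b = 0 := by
      intro i
      rw [hyij, hd b, hs b i]
      field_simp
      ring
    have hyw : y *ᵥ w = 0 := by
      funext i
      have h1 : ∀ k, ∑ j, x k j * w j = 0 := fun k => congrFun hw k
      change ∑ j, y i j * w j = 0
      have h2 : ∀ j, y i j * w j = x i j * w j - x a i * (x a b)⁻¹ * (x b j * w j) +
          (x a b)⁻¹ * x b i * (x a j * w j) := by
        intro j
        rw [hyij]
        ring
      simp only [h2, Finset.sum_add_distrib, Finset.sum_sub_distrib, ← Finset.mul_sum, h1]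
      ring
    rw [Matrix.mulVec_add, Matrix.mulVec_add, hyw, Matrix.mulVec_smul, Matrix.mulVec_smul]
    have h3 : y *ᵥ Pi.single a 1 = 0 := by
      rw [Matrix.mulVec_single_one]
      funext i
      exact hya i
    have h4 : y *ᵥ Pi.single b 1 = 0 := by
      rw [Matrix.mulVec_single_one]
      funext i
      exact hyb i
    rw [h3, h4, smul_zero, smul_zero, add_zero, add_zero]
  let f : (LinearMap.ker x.mulVecLin × K × K) →ₗ[K] LinearMap.ker y.mulVecLin :=
    { toFun := fun w => ⟨w.1.1 + w.2.1 • Pi.single a 1 + w.2.2 • Pi.single b 1, by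
        rw [LinearMap.mem_ker, Matrix.mulVecLin_apply]
        exact hker _ _ _ (by
          have := w.1.2
          rwa [LinearMap.mem_ker, Matrix.mulVecLin_apply] at this)⟩
      map_add' := fun w w' => by
        apply Subtype.ext
        change (w.1.1 + w'.1.1) + (w.2.1 + w'.2.1) • Pi.single a 1 +
          (w.2.2 + w'.2.2) • Pi.single b 1 = (w.1.1 + w.2.1 • Pi.single a 1 +
          w.2.2 • Pi.single b 1) + (w'.1.1 + w'.2.1 • Pi.single a 1 + w'.2.2 • Pi.single b 1)
        module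
      map_smul' := fun c w => by
        apply Subtype.ext
        change c • w.1.1 + (c * w.2.1) • Pi.single a 1 + (c * w.2.2) • Pi.single b 1 =
          c • (w.1.1 + w.2.1 • Pi.single a 1 + w.2.2 • Pi.single b 1)
        module }
  have hf : Function.Injective f := by
    rw [← LinearMap.ker_eq_bot, LinearMap.ker_eq_bot']
    rintro ⟨w, α, β⟩ hw
    have h1 : w.1 + α • Pi.single a 1 + β • Pi.single b 1 = 0 := congrArg Subtype.val hw
    have h2 : x *ᵥ w.1 = 0 := by
      have := w.2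
      rwa [LinearMap.mem_ker, Matrix.mulVecLin_apply] at this
    have h3 : ∀ i, α * x i a + β * x i b = 0 := by
      intro i
      have h4 : x *ᵥ (w.1 + α • Pi.single a 1 + β • Pi.single b 1) = 0 := by
        rw [h1, Matrix.mulVec_zero]
      rw [Matrix.mulVec_add, Matrix.mulVec_add, h2, Matrix.mulVec_smul, Matrix.mulVec_smul,
        Matrix.mulVec_single_one, Matrix.mulVec_single_one, zero_add] at h4
      exact congrFun h4 i
    have hβ : β = 0 := by
      have h5 := h3 a
      rw [hd a, mul_zero, zero_add] at h5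
      exact (mul_eq_zero.1 h5).resolve_right hab
    have hα : α = 0 := by
      have h5 := h3 b
      rw [hd b, mul_zero, add_zero, hs a b] at h5
      exact (mul_eq_zero.1 h5).resolve_right (neg_ne_zero.2 hab)
    subst hα hβ
    rw [zero_smul, zero_smul, add_zero, add_zero] at h1
    have : w = 0 := Subtype.ext h1
    rw [this]
    rfl
  have hdim := LinearMap.finrank_le_finrank_of_injective hf
  rw [Module.finrank_prod, Module.finrank_prod, Module.finrank_self] at hdim
  have hx1 := LinearMap.finrank_range_add_finrank_ker x.mulVecLin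
  have hy1 := LinearMap.finrank_range_add_finrank_ker y.mulVecLin
  change y.rank + _ = _ at hy1
  change x.rank + _ = _ at hx1
  omega

theorem sub_wedge_skew (x : M6 K) (h : xᵀ = -x) (u v : Fin 6 → K) :
    (x - wedgeM u v)ᵀ = -(x - wedgeM u v) := by
  rw [transpose_sub, h, wedgeM_skew]
  abel

theorem wedge_of_rank_le_two [CharZero K] (x : M6 K) (h : xᵀ = -x) (hr : x.rank ≤ 2) :
    ∃ u v, x = wedgeM u v := by
  by_cases hx : x = 0
  · exact ⟨0, 0, by rw [hx, wedgeM]; simp⟩
  · obtain ⟨u, v, huv⟩ := rank_sub_wedge x h hx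
    refine ⟨u, v, ?_⟩
    by_contra hc
    obtain ⟨u', v', h'⟩ := rank_sub_wedge _ (sub_wedge_skew x h u v) (sub_ne_zero.2 hc)
    omega

theorem wedge_of_rank_le_four [CharZero K] (x : M6 K) (h : xᵀ = -x) (hr : x.rank ≤ 4) :
    ∃ u v u' v', x = wedgeM u v + wedgeM u' v' := by
  by_cases hx : x = 0
  · exact ⟨0, 0, 0, 0, by rw [hx, wedgeM]; simp⟩
  · obtain ⟨u, v, huv⟩ := rank_sub_wedge x h hx
    obtain ⟨u', v', h'⟩ := wedge_of_rank_le_two _ (sub_wedge_skew x h u v) (by omega)
    exact ⟨u, v, u', v', by rw [← h']; abel⟩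

theorem rank_add_le' (x y : M6 K) : (x + y).rank ≤ x.rank + y.rank := by
  rw [Matrix.rank, Matrix.rank, Matrix.rank, Matrix.mulVecLin_add]
  refine (Submodule.finrank_mono (LinearMap.range_add_le _ _)).trans ?_
  exact Submodule.finrank_add_le_finrank_add_finrank _ _

theorem rank_wedge_le (u v : Fin 6 → K) : (wedgeM u v).rank ≤ 2 := by
  have h : wedgeM u v = vecMulVec u v + vecMulVec (-v) u := by
    rw [wedgeM, Matrix.neg_vecMulVec, sub_eq_add_neg]
  rw [h]
  have h1 := rank_vecMulVec_le u v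
  have h2 := rank_vecMulVec_le (-v) u
  have h3 := rank_add_le' (vecMulVec u v) (vecMulVec (-v) u)
  omega

/-- All the Pfaffians of order 4 vanish. -/
theorem pf4_eq_zero [CharZero K] (x : M6 K) (h : xᵀ = -x) (h0 : sharpM x = 0)
    (a b c d : Fin 6) : pf4 x a b c d = 0 := by
  have hs := skew_apply x h
  have hd := skew_diag x h
  have h15 : ∀ a b c d : Fin 6, a < b → b < c → c < d → pf4 x a b c d = 0 := by
    have e : ∀ i j, sharpM x i j = 0 := fun i j => by rw [h0]; rfl
    have e01 : pf4 x 2 3 4 5 = 0 := by simpa [sharpM] using e 0 1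
    have e02 : pf4 x 1 3 4 5 = 0 := by simpa [sharpM] using e 0 2
    have e03 : pf4 x 1 2 4 5 = 0 := by simpa [sharpM] using e 0 3
    have e04 : pf4 x 1 2 3 5 = 0 := by simpa [sharpM] using e 0 4
    have e05 : pf4 x 1 2 3 4 = 0 := by simpa [sharpM] using e 0 5
    have e12 : pf4 x 0 3 4 5 = 0 := by simpa [sharpM] using e 1 2
    have e13 : pf4 x 0 2 4 5 = 0 := by simpa [sharpM] using e 1 3
    have e14 : pf4 x 0 2 3 5 = 0 := by simpa [sharpM] using e 1 4
    have e15 : pf4 x 0 2 3 4 = 0 := by simpa [sharpM] using e 1 5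
    have e23 : pf4 x 0 1 4 5 = 0 := by simpa [sharpM] using e 2 3
    have e24 : pf4 x 0 1 3 5 = 0 := by simpa [sharpM] using e 2 4
    have e25 : pf4 x 0 1 3 4 = 0 := by simpa [sharpM] using e 2 5
    have e34 : pf4 x 0 1 2 5 = 0 := by simpa [sharpM] using e 3 4
    have e35 : pf4 x 0 1 2 4 = 0 := by simpa [sharpM] using e 3 5
    have e45 : pf4 x 0 1 2 3 = 0 := by simpa [sharpM] using e 4 5
    have hcases : ∀ a b c d : Fin 6, a < b → b < c → c < d →
        (a = 0 ∧ b = 1 ∧ c = 2 ∧ d = 3) ∨ (a = 0 ∧ b = 1 ∧ c = 2 ∧ d = 4) ∨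
        (a = 0 ∧ b = 1 ∧ c = 2 ∧ d = 5) ∨ (a = 0 ∧ b = 1 ∧ c = 3 ∧ d = 4) ∨
        (a = 0 ∧ b = 1 ∧ c = 3 ∧ d = 5) ∨ (a = 0 ∧ b = 1 ∧ c = 4 ∧ d = 5) ∨
        (a = 0 ∧ b = 2 ∧ c = 3 ∧ d = 4) ∨ (a = 0 ∧ b = 2 ∧ c = 3 ∧ d = 5) ∨
        (a = 0 ∧ b = 2 ∧ c = 4 ∧ d = 5) ∨ (a = 0 ∧ b = 3 ∧ c = 4 ∧ d = 5) ∨
        (a = 1 ∧ b = 2 ∧ c = 3 ∧ d = 4) ∨ (a = 1 ∧ b = 2 ∧ c = 3 ∧ d = 5) ∨
        (a = 1 ∧ b = 2 ∧ c = 4 ∧ d = 5) ∨ (a = 1 ∧ b = 3 ∧ c = 4 ∧ d = 5) ∨
        (a = 2 ∧ b = 3 ∧ c = 4 ∧ d = 5) := by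
      intro a
      fin_cases a <;> intro b <;> fin_cases b <;> intro c d h1 h2 h3 <;> simp at h1 <;>
        fin_cases c <;> simp at h2 <;> fin_cases d <;> simp at h3 <;> simp
    intro a b c d hab hbc hcd
    rcases hcases a b c d hab hbc hcd with H | H | H | H | H | H | H | H | H | H | H | H | H |
      H | H <;> obtain ⟨rfl, rfl, rfl, rfl⟩ := H <;> assumption
  have hL3 : ∀ a b c d : Fin 6, a < b → b < c → pf4 x a b c d = 0 := by
    intro a b c d hab hbc
    rcases lt_trichotomy d a with h1 | h1 | h1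
    · have := h15 d a b c h1 hab hbc
      rw [pf4, hs a d, hs b d, hs c d] at this
      rw [pf4]
      linear_combination -this
    · subst h1
      rw [pf4, hd, hs d c, hs d b]
      ring
    rcases lt_trichotomy d b with h2 | h2 | h2
    · have := h15 a d b c h1 h2 hbc
      rw [pf4, hs b d, hs c d] at this
      rw [pf4]
      linear_combination this
    · subst h2
      rw [pf4, hd, hs d c]
      ring
    rcases lt_trichotomy d c with h3 | h3 | h3
    · have := h15 a b d c hab h2 h3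
      rw [pf4, hs c d] at this
      rw [pf4]
      linear_combination -this
    · subst h3
      rw [pf4, hd]
      ring
    · exact h15 a b c d hab hbc h3
  have hL2 : ∀ a b c d : Fin 6, a < b → pf4 x a b c d = 0 := by
    intro a b c d hab
    rcases lt_trichotomy c a with h1 | h1 | h1
    · have := hL3 c a b d h1 hab
      rw [pf4, hs a c, hs b c] at this
      rw [pf4]
      linear_combination this
    · subst h1
      rw [pf4, hd, hs c b]
      ring
    rcases lt_trichotomy c b with h2 | h2 | h2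
    · have := hL3 a c b d h1 h2
      rw [pf4, hs b c] at this
      rw [pf4]
      linear_combination -this
    · subst h2
      rw [pf4, hd]
      ring
    · exact hL3 a b c d hab h2
  rcases lt_trichotomy a b with h1 | h1 | h1
  · exact hL2 a b c d h1
  · subst h1
    rw [pf4, hd]
    ring
  · have := hL2 b a c d h1
    rw [pf4, hs a b] at this
    rw [pf4]
    linear_combination -this

theorem wedge_of_sharp [CharZero K] (x : M6 K) (h : xᵀ = -x) (h0 : sharpM x = 0) :
    ∃ u v, x = wedgeM u v := by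
  by_cases hx : x = 0
  · exact ⟨0, 0, by rw [hx, wedgeM]; simp⟩
  obtain ⟨a, b, hab⟩ : ∃ a b, x a b ≠ 0 := by
    by_contra hc
    push Not at hc
    exact hx (Matrix.ext fun i j => hc i j)
  have hs := skew_apply x h
  refine ⟨fun i => x a i, fun i => (x a b)⁻¹ * x b i, ?_⟩
  ext i j
  have h1 := pf4_eq_zero x h h0 a b i j
  rw [pf4] at h1
  rw [wedgeM, Matrix.sub_apply, vecMulVec_apply, vecMulVec_apply]
  field_simp
  linear_combination h1

theorem sharp_wedge (u v : Fin 6 → K) : sharpM (wedgeM u v) = 0 := by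
  have h : ∀ a b c d, pf4 (wedgeM u v) a b c d = 0 := by
    intro a b c d
    simp only [pf4, wedgeM, Matrix.sub_apply, vecMulVec_apply]
    ring
  rw [sharpM]
  simp only [h, neg_zero]
  ext i j
  fin_cases i <;> fin_cases j <;> rfl

theorem mul_sharpM [CharZero K] (x : M6 K) (h : xᵀ = -x) :
    x * sharpM x = -Pf x • (1 : M6 K) := by
  have hs := skew_apply x h
  have hd := skew_diag x h
  ext i j
  fin_cases i <;> fin_cases j <;>
    simp [Matrix.mul_apply, Fin.sum_univ_six, sharpM, hd, hs 0 1, hs 0 2, hs 0 3, hs 0 4, hs 0 5,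
      hs 1 2, hs 1 3, hs 1 4, hs 1 5, hs 2 3, hs 2 4, hs 2 5, hs 3 4, hs 3 5, hs 4 5, pf4, Pf] <;>
    ring

theorem Pf_wedge_add (u v u' v' : Fin 6 → K) : Pf (wedgeM u v + wedgeM u' v') = 0 := by
  simp only [Pf, pf4, wedgeM, Matrix.add_apply, Matrix.sub_apply, vecMulVec_apply]
  ring

theorem rank_wedge_add_le (u v u' v' : Fin 6 → K) : (wedgeM u v + wedgeM u' v').rank ≤ 4 := by
  have h1 := rank_wedge_le u v
  have h2 := rank_wedge_le u' v'
  have h3 := rank_add_le' (wedgeM u v) (wedgeM u' v')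
  omega

theorem rank_le_two_iff [CharZero K] (x : M6 K) (h : xᵀ = -x) :
    x.rank ≤ 2 ↔ sharpM x = 0 := by
  constructor
  · intro hr
    obtain ⟨u, v, rfl⟩ := wedge_of_rank_le_two x h hr
    exact sharp_wedge u v
  · intro hr
    obtain ⟨u, v, rfl⟩ := wedge_of_sharp x h hr
    exact rank_wedge_le u v

theorem rank_le_four_iff [CharZero K] (x : M6 K) (h : xᵀ = -x) : x.rank ≤ 4 ↔ Pf x = 0 := by
  constructor
  · intro hr
    obtain ⟨u, v, u', v', rfl⟩ := wedge_of_rank_le_four x h hr
    exact Pf_wedge_add u v u' v'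
  · intro hP
    by_cases h0 : sharpM x = 0
    · exact ((rank_le_two_iff x h).2 h0).trans (by norm_num)
    · have h1 : x * sharpM x = 0 := by rw [mul_sharpM x h, hP, neg_zero, zero_smul]
      have h2 := rank_add_rank_le_card_of_mul_eq_zero h1
      rw [Fintype.card_fin] at h2
      obtain ⟨u, v, h3⟩ := rank_sub_wedge (sharpM x) (sharpM_skew x) h0
      omega

end Pool.Agent.Lib.MP_d55432_al.SIX.H47

namespace Pool.Agent.Lib.MP_d55432_al.SIX

open Matrix LieAlgebra

theorem H47.darb (K : Type*) [Field K] [CharZero K] : DARB_S K := by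
  have hskew : ∀ x : L6 K, x.1ᵀ = -x.1 := fun x =>
    (LieAlgebra.Orthogonal.mem_so _ _ _).1 x.2
  refine ⟨fun x => ?_, fun x => H47.rank_le_four_iff x.1 (hskew x), fun x => ⟨fun h => ?_, ?_⟩,
    fun x => ⟨fun h => ?_, ?_⟩⟩
  · rw [H47.rank_le_two_iff x.1 (hskew x)]
    exact ⟨fun h => Subtype.ext h, fun h => congrArg Subtype.val h⟩
  · obtain ⟨u, v, huv⟩ := H47.wedge_of_rank_le_two x.1 (hskew x) h
    exact ⟨u, v, Subtype.ext huv⟩
  · rintro ⟨u, v, rfl⟩
    exact H47.rank_wedge_le u v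
  · obtain ⟨u, v, u', v', huv⟩ := H47.wedge_of_rank_le_four x.1 (hskew x) h
    exact ⟨u, v, u', v', Subtype.ext huv⟩
  · rintro ⟨u, v, u', v', rfl⟩
    exact H47.rank_wedge_add_le u v u' v'

end Pool.Agent.Lib.MP_d55432_al.SIX
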