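import Pool.Agent.Lib.MP_d55432_al.SIX.Iface

/-!
# SIX, module FINAL: the images of Lie polynomials on `so₆`
-/

namespace Pool.Agent.Lib.MP_d55432_al.SIX

open Matrix LieAlgebra

/-- The description of the images. -/
def MAIN_S (K : Type*) [Field K] : Prop :=
  (∀ S : Set (L6 K),
    (∃ (m d : ℕ) (p : FreeLieAlgebra K (Fin m)), IsHomogeneousLie d p ∧ S = lieImage (L6 K) p) ↔
      ((0 : L6 K) ∈ S ∧ (∀ (t : K), ∀ x ∈ S, t • x ∈ S) ∧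
        (∀ φ : L6 K ≃ₗ⁅K⁆ L6 K, ∀ x ∈ S, φ x ∈ S) ∧
        BoolComb (PolyOn K (L6 K) : Set (L6 K → K)) S ∧ ∃ k ≤ 3, IsDenseIn S (Zset K k))) ∧
  (∀ k ≤ 3, ∃ (m d : ℕ) (p : FreeLieAlgebra K (Fin m)),
    IsHomogeneousLie d p ∧ Zset K k = lieImage (L6 K) p) ∧
  (∀ (m : ℕ) (p : FreeLieAlgebra K (Fin m)), ∃ k ≤ 3,
    IsDenseIn (lieImage (L6 K) p) (Zset K k)) ∧
  (∀ S ⊆ Zset K 1, (∃ (m : ℕ) (p : FreeLieAlgebra K (Fin m)), S = lieImage (L6 K) p) ↔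
    (S = {0} ∨ ∃ T ⊆ ({0, 1} : Set ℕ), S = DT K T))

theorem H47.final (K : Type*) [Field K] [IsAlgClosed K] [CharZero K] (hS : SIMPLE_S K)
    (hE : EXIST_S K) (hC : CLOS_S K) (hL : LIST_S K) (hN : NIL_S K) (hD : DARB_S K) :
    MAIN_S K := by
  have : LieAlgebra.IsSimple K (L6 K) := hS
  obtain ⟨hN1, hN2, -⟩ := hN
  refine ⟨fun S => ⟨?_, ?_⟩, ?_, fun m p => (hC m p).1, fun S hS1 => ⟨?_, ?_⟩⟩
  · rintro ⟨m, d, p, hp, rfl⟩
    exact ⟨⟨0, lift_zero p⟩, smul_mem_lieImage hp, aut_mem_lieImage, boolComb_lieImage p,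
      (hC m p).1⟩
  · rintro ⟨h0, h1, h2, h3, k, hk, h4, h5⟩
    obtain ⟨m, d, p, hp, hpk⟩ := hE k hk
    rw [images_iff]
    refine ⟨h0, h1, h2, h3, m, d, p, hp, ?_, ?_⟩
    · rw [hpk]
      exact h4
    · rw [hpk]
      exact h5
  · intro k hk
    obtain ⟨m, d, p, hp, hpk⟩ := hE k hk
    exact ⟨m, d, p, hp, hpk.symm⟩
  · rintro ⟨m, p, rfl⟩
    rcases (hC m p).2 hS1 with h | h
    · exact Or.inl h
    right
    refine ⟨{t | (t = 0 ∨ t = 1) ∧ ∃ x ∈ lieImage (L6 K) p, x ≠ 0 ∧ s1 x.1 = 0 ∧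
      (x.1 * x.1).rank = t}, fun t ht => ?_, ?_⟩
    · rcases ht.1 with h1 | h1 <;> simp [h1]
    apply Set.Subset.antisymm
    · intro x hx
      have hr : x.1.rank ≤ 2 := hS1 hx
      refine ⟨hr, ?_⟩
      by_cases hx0 : x = 0
      · exact Or.inl hx0
      right
      rcases hN1 x hr hx0 with ⟨h1, h2⟩ | ⟨h1, h2⟩
      · right
        exact h2
      · left
        refine ⟨h2.symm, x, hx, hx0, h1, rfl⟩
    · rintro x ⟨hr, hx⟩
      by_cases hx0 : x = 0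
      · rw [hx0]
        exact ⟨0, lift_zero p⟩
      rcases hx with hx | hx
      · exact absurd hx hx0
      rcases hN1 x hr hx0 with ⟨h1, h2⟩ | ⟨h1, h2⟩
      · exact h x ((hD.1 x).1 hr) h1
      · rcases hx with ⟨h3, y, hy, hy0, hy1, hy2⟩ | hx
        · obtain ⟨φ, hφ⟩ := hN2 y x (hS1 hy) hr hy0 hx0 hy1 h1 hy2
          rw [← hφ]
          exact aut_mem_lieImage φ y hy
        · have hx' : (x.1 * x.1).rank = 2 := hx
          omega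
  · rintro (rfl | ⟨T, hT, rfl⟩)
    · refine ⟨0, 0, ?_⟩
      apply Set.Subset.antisymm
      · rintro x rfl
        exact ⟨0, lift_zero _⟩
      · rintro _ ⟨a, rfl⟩
        simp
    · obtain ⟨m, d, p, -, hp⟩ := hL T hT
      exact ⟨m, p, hp⟩

end Pool.Agent.Lib.MP_d55432_al.SIX
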