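import Pool.Agent.Lib.MP_d55432_al.SIX.H16.Cha
import Pool.Agent.Lib.MP_d55432_al.SIX.H23.Par3
import Pool.Agent.Lib.MP_d55432_al.SIX.H30.Chb
import Pool.Agent.Lib.MP_d55432_al.SIX.H32.Phi
import Pool.Agent.Lib.MP_d55432_al.SIX.H47.Core
import Pool.Agent.Lib.MP_d55432_al.SIX.H47.Darb
import Pool.Agent.Lib.MP_d55432_al.SIX.H47.Final
import Pool.Agent.Lib.MP_d55432_al.SIX.H57.Sig
import Pool.Agent.Lib.MP_d55432_al.SIX.H57.Simple
import Pool.Agent.Lib.MP_d55432_al.SIX.H57.Theta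
import Pool.Agent.Lib.MP_d55432_al.SIX.H65.Orb
import Pool.Agent.Lib.MP_d55432_al.SIX.H65.Reg3
import Pool.Agent.Lib.MP_d55432_al.SIX.H66.Nrm
import Pool.Agent.Lib.MP_d55432_al.SIX.H66.Poly
import Pool.Agent.Lib.MP_d55432_al.SIX.H66.Rel3
import Pool.Agent.Lib.MP_d55432_al.SIX.H68.Gen
import Pool.Agent.Lib.MP_d55432_al.SIX.H70.Exist
import Pool.Agent.Lib.MP_d55432_al.SIX.H70.Nil
import Pool.Agent.Lib.MP_d55432_al.SIX.H70.Range
import Pool.Agent.Lib.MP_d55432_al.SIX.H74.Rel2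
import Pool.Agent.Lib.MP_d55432_al.SIX.H87.List
import Pool.Agent.Lib.MP_d55432_al.SIX.H87.Par2
import Pool.Agent.Lib.MP_d55432_al.SIX.H87.Reg2
import Pool.Agent.Lib.MP_d55432_al.SIX.H93.Rank2
import Pool.Agent.Lib.MP_d55432_al.SIX.H97.Ad
import Pool.Agent.Lib.MP_d55432_al.SIX.H97.Alg3
import Pool.Agent.Lib.MP_d55432_al.SIX.H97.Clos

/-!
# SIX: assembly of the modules
-/

namespace Pool.Agent.Lib.MP_d55432_al.SIX

theorem main (K : Type*) [Field K] [IsAlgClosed K] [CharZero K] : MAIN_S K := by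
  have hS : SIMPLE_S K := H57.simple K
  have hT : THETA_S K := H57.theta K
  have hD : DARB_S K := H47.darb K
  have hO : ORB_S K := H65.orb K
  have hB : CHB_S K := H30.chb K
  have hCC : CHC_S K := H30.chc K
  have hA : AD_S K := H97.ad K hCC
  have hCore : CORE_S K := H47.core K (H16.cha K) hCC
  have hP : PHI_S K := H32.phi K hA
  have hR : RANGE_S K := range K hCore hP hO
  have hE : EXIST_S K := exist K hS hT hP hR H66.poly hD
  have hN : NIL_S K := nil K hD hT hO hA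
  have hR2 : RANK2_S K := rank2 K hT hO
  have hL : LIST_S K := H87.list K hS hD hE hN hR2
  have hSig : SIG_S K := H57.sig K
  have hrel3 : REL3_S K := H66.rel3 hT hSig (H65.reg3 K hB) H66.nrm3
  have hrel2 : REL2_S K := H74.rel2 K hT hSig (H87.reg2 K hB) H66.nrm2
  have hC : CLOS_S K := H97.clos K (H68.gen K) (H23.par3 K (H97.alg3 K)) (H87.par2 K) hrel3
    hrel2 hR2 hD
  exact H47.final K hS hE hC hL hN hD

end Pool.Agent.Lib.MP_d55432_al.SIX
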